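import Mathlib

/-! Common neighbours. -/

namespace Pool.Agent.FS.SubK33

open Finset SimpleGraph
open scoped Classical

variable {U : Type} [Fintype U]

/-- common neighbours -/
noncomputable def cn (F : SimpleGraph U) (x y : U) : Finset U := univ.filter fun z => F.Adj x z ∧ F.Adj y z

def Rich (g : ℕ) (F : SimpleGraph U) : Prop := ∀ x y, F.Adj x y → g ≤ (cn F x y).card

end Pool.Agent.FS.SubK33
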