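import Pool.Agent.FS.SubK33.Defs
import Pool.Agent.FS.SubK33.Base

/-! Rich graphs contain subdivisions. -/

namespace Pool.Agent.FS.SubK33

open Finset SimpleGraph
open scoped Classical

variable {U : Type} [Fintype U]

theorem sub_step {V : Type} [Finite V] {G : SimpleGraph V} {x y : V} (hxy : G.Adj x y)
    {F : SimpleGraph U} (hF : Rich (Nat.card V + 1) F) (h : G.IsContained F) :
    (subdivide G x y).IsContained F := by
  obtain ⟨f⟩ := h
  have := Fintype.ofFinite V
  have h1 := hF _ _ (f.toHom.map_adj hxy)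
  have h2 : (univ.image f).card < (cn F (f x) (f y)).card := by
    have := card_image_le (s := (univ : Finset V)) (f := f)
    rw [card_univ, ← Nat.card_eq_fintype_card] at this
    exact lt_of_le_of_lt this h1
  obtain ⟨z, hz, hn⟩ := exists_mem_notMem_of_card_lt_card h2
  have hz' := (mem_filter.1 hz).2
  refine ⟨⟨⟨fun a => a.elim z f, ?_⟩, ?_⟩⟩
  · rintro (_ | a) (_ | b) h
    · exact h.elim
    · rcases h with rfl | rfl
      · exact hz'.1.symm
      · exact hz'.2.symm
    · rcases h with rfl | rfl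
      · exact hz'.1
      · exact hz'.2
    · exact f.toHom.map_adj h.1
  · rintro (_ | a) (_ | b) h
    · rfl
    · exact absurd (mem_image.2 ⟨b, mem_univ _, h.symm⟩) hn
    · exact absurd (mem_image.2 ⟨a, mem_univ _, h⟩) hn
    · exact congrArg some (f.injective h)

theorem sub_rich {W : Type} [Finite W] {G₀ : SimpleGraph W} {V : Type} {G : SimpleGraph V}
    (h : IsSubdiv G₀ V G) : Finite V ∧ ∃ g, ∀ (U : Type) [Fintype U] (F : SimpleGraph U),
      Rich g F → G₀.IsContained F → G.IsContained F := by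
  induction h with
  | base => exact ⟨inferInstance, 0, fun _ _ _ _ h => h⟩
  | @step V G x y _ hxy ih =>
    obtain ⟨i, g, ih⟩ := ih
    exact ⟨inferInstance, max g (Nat.card V + 1), fun U _ F hF h => sub_step hxy
      (fun a b hab => (le_max_right _ _).trans (hF a b hab))
      (ih U F (fun a b hab => (le_max_left _ _).trans (hF a b hab)) h)⟩

theorem twice_sub : IsSubdiv (completeBipartiteGraph (Fin 3) (Fin 3)) _ twice :=
  .step _ _ (.step _ _ .base (by simp)) (Or.inr rfl)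

theorem three {F : SimpleGraph U} (h : ¬ (completeBipartiteGraph (Fin 3) (Fin 3)).IsContained F)
    {a b c : U} (h1 : a ≠ b) (h2 : a ≠ c) (h3 : b ≠ c) :
    (univ.filter fun z => F.Adj a z ∧ F.Adj b z ∧ F.Adj c z).card ≤ 2 := by
  by_contra hc
  obtain ⟨x, y, z, hx, hy, hz, k1, k2, k3⟩ := two_lt_card_iff.1 (not_le.1 hc)
  simp only [mem_filter, mem_univ, true_and] at hx hy hz
  obtain ⟨x1, x2, x3⟩ := hx
  obtain ⟨y1, y2, y3⟩ := hy
  obtain ⟨z1, z2, z3⟩ := hz
  have n1 := x1.ne; have n2 := x2.ne; have n3 := x3.ne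
  have n4 := y1.ne; have n5 := y2.ne; have n6 := y3.ne
  have n7 := z1.ne; have n8 := z2.ne; have n9 := z3.ne
  refine h ⟨⟨⟨Sum.elim ![a, b, c] ![x, y, z], ?_⟩, ?_⟩⟩
  · rintro (i | i) (j | j) hij
    · simp at hij
    · fin_cases i <;> fin_cases j <;> assumption
    · fin_cases i <;> fin_cases j <;> (apply Adj.symm; assumption)
    · simp at hij
  · rintro (i | i) (j | j) hij <;> fin_cases i <;> fin_cases j <;>
      first | rfl | (exfalso; simp at hij; grind)

/-- a copy of `K₃,₃` minus the edge `u v` -/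
structure Conf (F : SimpleGraph U) (u v : U) (c : (U × U) × U × U) : Prop where
  e1 : F.Adj u c.1.1
  e2 : F.Adj u c.1.2
  e3 : F.Adj v c.2.1
  e4 : F.Adj v c.2.2
  e5 : F.Adj c.1.1 c.2.1
  e6 : F.Adj c.1.1 c.2.2
  e7 : F.Adj c.1.2 c.2.1
  e8 : F.Adj c.1.2 c.2.2
  n1 : u ≠ v
  n2 : c.1.1 ≠ c.1.2
  n3 : c.2.1 ≠ c.2.2
  n4 : u ≠ c.2.1
  n5 : u ≠ c.2.2
  n6 : v ≠ c.1.1
  n7 : v ≠ c.1.2

omit [Fintype U] in
theorem path_hit {F : SimpleGraph U} (h : ¬ twice.IsContained F) {u v b1 b2 a1 a2 b a : U}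
    (c : Conf F u v ((b1, b2), a1, a2)) (p1 : F.Adj u b) (p2 : F.Adj b a) (p3 : F.Adj v a)
    (m1 : v ≠ b) (m2 : u ≠ a) :
    b ∈ ({b1, b2, a1, a2} : Finset U) ∨ a ∈ ({b1, b2, a1, a2} : Finset U) := by
  by_contra hc
  simp only [mem_insert, mem_singleton, not_or] at hc
  obtain ⟨⟨q1, q2, q3, q4⟩, q5, q6, q7, q8⟩ := hc
  obtain ⟨e1, e2, e3, e4, e5, e6, e7, e8, n1, n2, n3, n4, n5, n6, n7⟩ := c
  dsimp only at *
  have d1 := e1.ne; have d2 := e2.ne; have d3 := e3.ne; have d4 := e4.ne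
  have d5 := e5.ne; have d6 := e6.ne; have d7 := e7.ne; have d8 := e8.ne
  have d9 := p1.ne; have d10 := p2.ne; have d11 := p3.ne
  have s1 := e1.symm; have s2 := e2.symm; have s3 := e3.symm; have s4 := e4.symm
  have s5 := e5.symm; have s6 := e6.symm; have s7 := e7.symm; have s8 := e8.symm
  have s9 := p1.symm; have s10 := p2.symm; have s11 := p3.symm
  refine h ⟨⟨⟨fun t => t.elim a fun t => t.elim b (Sum.elim ![u, a1, a2] ![v, b1, b2]), ?_⟩, ?_⟩⟩
  · rintro (_ | _ | i | i) (_ | _ | j | j) hij <;> (try fin_cases i) <;> (try fin_cases j) <;>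
      first | assumption | (exfalso; simp [twice, subdivide] at hij)
  · rintro (_ | _ | i | i) (_ | _ | j | j) hij <;> (try fin_cases i) <;> (try fin_cases j) <;>
      first | rfl | (exfalso; simp at hij; grind)

end Pool.Agent.FS.SubK33
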