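import Pool.Agent.FS.SubK33.A

/-! The count of four-cycles. -/

namespace Pool.Agent.FS.SubK33

open Finset SimpleGraph
open scoped Classical

variable {U : Type} [Fintype U]

theorem conf_le {F : SimpleGraph U} (h3 : ¬ (completeBipartiteGraph (Fin 3) (Fin 3)).IsContained F)
    (h : ¬ twice.IsContained F) (u v : U) : (univ.filter (Conf F u v)).card ≤ 128 := by
  rcases (univ.filter (Conf F u v)).eq_empty_or_nonempty with e | ⟨⟨⟨b1, b2⟩, a1, a2⟩, hc⟩
  · simp [e]
  have c := (mem_filter.1 hc).2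
  set Z : Finset U := {b1, b2, a1, a2} with hZ
  have z4 : Z.card ≤ 4 := card_le_four
  have z16 : (Z ×ˢ Z).card ≤ 16 := by rw [card_product]; exact Nat.mul_le_mul z4 z4
  have key : ∀ d, Conf F u v d → d.1 ∈ Z ×ˢ Z ∨ d.2 ∈ Z ×ˢ Z := fun d k => by
    have t1 := path_hit h c k.e1 k.e5 k.e3 k.n6 k.n4
    have t2 := path_hit h c k.e1 k.e6 k.e4 k.n6 k.n5
    have t3 := path_hit h c k.e2 k.e7 k.e3 k.n7 k.n4
    have t4 := path_hit h c k.e2 k.e8 k.e4 k.n7 k.n5
    simp only [mem_product]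
    tauto
  have l1 : ((univ.filter (Conf F u v)).filter fun d => d.1 ∈ Z ×ˢ Z).card ≤ 4 * (Z ×ˢ Z).card := by
    refine card_le_mul_card_image_of_maps_to (f := fun d : (U × U) × U × U => d.1) (fun d hd => (mem_filter.1 hd).2) 4
      fun p _ => ?_
    rcases (((univ.filter (Conf F u v)).filter fun d => d.1 ∈ Z ×ˢ Z).filter
      fun d => d.1 = p).eq_empty_or_nonempty with e | ⟨d0, hd0⟩
    · exact (card_eq_zero.2 e).le.trans (Nat.zero_le _)
    simp only [mem_filter, mem_univ, true_and] at hd0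
    obtain ⟨⟨k0, -⟩, rfl⟩ := hd0
    have t := three h3 k0.n6 k0.n7 k0.n2
    refine le_trans (card_le_card_of_injOn (t := _ ×ˢ _) (fun d => d.2) (fun d hd => ?_) fun d hd d' hd' e => ?_)
      ((card_product _ _).le.trans (Nat.mul_le_mul t t))
    · simp only [coe_filter, mem_filter, mem_univ, true_and, Set.mem_ofPred_eq, coe_product,
        Set.mem_prod] at hd ⊢
      obtain ⟨⟨k, -⟩, e⟩ := hd
      rw [← e]
      exact ⟨⟨k.e3, k.e5, k.e7⟩, k.e4, k.e6, k.e8⟩
    · simp only [coe_filter, Set.mem_ofPred_eq] at hd hd'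
      exact Prod.ext (hd.2.trans hd'.2.symm) e
  have l2 : ((univ.filter (Conf F u v)).filter fun d => d.2 ∈ Z ×ˢ Z).card ≤ 4 * (Z ×ˢ Z).card := by
    refine card_le_mul_card_image_of_maps_to (f := fun d : (U × U) × U × U => d.2) (fun d hd => (mem_filter.1 hd).2) 4
      fun p _ => ?_
    rcases (((univ.filter (Conf F u v)).filter fun d => d.2 ∈ Z ×ˢ Z).filter
      fun d => d.2 = p).eq_empty_or_nonempty with e | ⟨d0, hd0⟩
    · exact (card_eq_zero.2 e).le.trans (Nat.zero_le _)
    simp only [mem_filter, mem_univ, true_and] at hd0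
    obtain ⟨⟨k0, -⟩, rfl⟩ := hd0
    have t := three h3 k0.n4 k0.n5 k0.n3
    refine le_trans (card_le_card_of_injOn (t := _ ×ˢ _) (fun d => d.1) (fun d hd => ?_) fun d hd d' hd' e => ?_)
      ((card_product _ _).le.trans (Nat.mul_le_mul t t))
    · simp only [coe_filter, mem_filter, mem_univ, true_and, Set.mem_ofPred_eq, coe_product,
        Set.mem_prod] at hd ⊢
      obtain ⟨⟨k, -⟩, e⟩ := hd
      rw [← e]
      exact ⟨⟨k.e1, k.e5.symm, k.e6.symm⟩, k.e2, k.e7.symm, k.e8.symm⟩
    · simp only [coe_filter, Set.mem_ofPred_eq] at hd hd'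
      exact Prod.ext e (hd.2.trans hd'.2.symm)
  have : univ.filter (Conf F u v) ⊆ ((univ.filter (Conf F u v)).filter fun d => d.1 ∈ Z ×ˢ Z) ∪
      ((univ.filter (Conf F u v)).filter fun d => d.2 ∈ Z ×ˢ Z) := fun d hd => by
    rcases key d (mem_filter.1 hd).2 with k | k
    · exact mem_union_left _ (mem_filter.2 ⟨hd, k⟩)
    · exact mem_union_right _ (mem_filter.2 ⟨hd, k⟩)
  have := (card_le_card this).trans (card_union_le _ _)
  omega


theorem c4_le {F : SimpleGraph U} (h3 : ¬ (completeBipartiteGraph (Fin 3) (Fin 3)).IsContained F)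
    (h : ¬ twice.IsContained F) :
    ∑ p ∈ (univ : Finset U).offDiag, (cn F p.1 p.2).offDiag.card ≤ 146 * Fintype.card U ^ 2 := by
  set Q : Finset ((U × U) × U × U) := univ.filter fun d => d.1.1 ≠ d.1.2 ∧ d.2.1 ≠ d.2.2 ∧
    F.Adj d.1.1 d.2.1 ∧ F.Adj d.1.2 d.2.1 ∧ F.Adj d.1.1 d.2.2 ∧ F.Adj d.1.2 d.2.2 with hQ
  have e0 : ∑ p ∈ (univ : Finset U).offDiag, (cn F p.1 p.2).offDiag.card ≤ Q.card := by
    rw [← card_sigma]
    refine card_le_card_of_injOn (fun x => (x.1, x.2)) (fun x hx => ?_) fun x _ y _ e => ?_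
    · simp only [coe_sigma, Set.mem_sigma_iff, mem_coe, mem_offDiag, cn, mem_filter, mem_univ,
        true_and, hQ] at hx ⊢
      tauto
    · obtain ⟨e1, e2⟩ := Prod.mk.inj e
      exact Sigma.ext e1 (heq_of_eq e2)
  have small : ∀ S : Finset U, S.card ≤ 3 → (S ×ˢ S).card ≤ 9 := fun S hS => by
    rw [card_product]; exact Nat.mul_le_mul hS hS
  have cU : (univ : Finset (U × U)).card = Fintype.card U ^ 2 := by simp [sq]
  have l1 : (Q.filter fun d => (cn F d.1.1 d.1.2).card ≤ 3).card ≤ 9 * Fintype.card U ^ 2 := by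
    rw [← cU]
    refine card_le_mul_card_image_of_maps_to (f := fun d : (U × U) × U × U => d.1)
      (fun d _ => mem_univ _) 9 fun p _ => ?_
    by_cases hp : (cn F p.1 p.2).card ≤ 3
    · refine le_trans (card_le_card_of_injOn (fun d => d.2) (fun d hd => ?_) fun d hd d' hd' e => ?_)
        (small _ hp)
      · simp only [coe_filter, mem_filter, mem_univ, true_and, Set.mem_ofPred_eq, coe_product,
          Set.mem_prod, hQ, cn] at hd ⊢
        obtain ⟨⟨k, -⟩, rfl⟩ := hd
        tauto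
      · simp only [coe_filter, Set.mem_ofPred_eq] at hd hd'
        exact Prod.ext (hd.2.trans hd'.2.symm) e
    · refine (card_eq_zero.2 (filter_eq_empty_iff.2 fun d hd e => hp ?_)).le.trans (Nat.zero_le _)
      rw [← e]
      exact (mem_filter.1 hd).2
  have l2 : (Q.filter fun d => (cn F d.2.1 d.2.2).card ≤ 3).card ≤ 9 * Fintype.card U ^ 2 := by
    rw [← cU]
    refine card_le_mul_card_image_of_maps_to (f := fun d : (U × U) × U × U => d.2)
      (fun d _ => mem_univ _) 9 fun p _ => ?_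
    by_cases hp : (cn F p.1 p.2).card ≤ 3
    · refine le_trans (card_le_card_of_injOn (fun d => d.1) (fun d hd => ?_) fun d hd d' hd' e => ?_)
        (small _ hp)
      · simp only [coe_filter, mem_filter, mem_univ, true_and, Set.mem_ofPred_eq, coe_product,
          Set.mem_prod, hQ, cn] at hd ⊢
        obtain ⟨⟨⟨-, -, k1, k2, k3, k4⟩, -⟩, rfl⟩ := hd
        exact ⟨⟨k1.symm, k3.symm⟩, k2.symm, k4.symm⟩
      · simp only [coe_filter, Set.mem_ofPred_eq] at hd hd'
        exact Prod.ext e (hd.2.trans hd'.2.symm)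
    · refine (card_eq_zero.2 (filter_eq_empty_iff.2 fun d hd e => hp ?_)).le.trans (Nat.zero_le _)
      rw [← e]
      exact (mem_filter.1 hd).2
  have l3 : ((univ : Finset (U × U)).biUnion fun p => univ.filter (Conf F p.1 p.2)).card ≤
      Fintype.card U ^ 2 * 128 := by
    rw [← cU]
    exact card_biUnion_le_card_mul _ _ _ fun p _ => conf_le h3 h _ _
  have sub : Q ⊆ (Q.filter fun d => (cn F d.1.1 d.1.2).card ≤ 3) ∪
      (Q.filter fun d => (cn F d.2.1 d.2.2).card ≤ 3) ∪
      ((univ : Finset (U × U)).biUnion fun p => univ.filter (Conf F p.1 p.2)) := fun d hd => by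
    by_cases k1 : (cn F d.1.1 d.1.2).card ≤ 3
    · exact mem_union_left _ (mem_union_left _ (mem_filter.2 ⟨hd, k1⟩))
    by_cases k2 : (cn F d.2.1 d.2.2).card ≤ 3
    · exact mem_union_left _ (mem_union_right _ (mem_filter.2 ⟨hd, k2⟩))
    obtain ⟨u, hu, nu⟩ := exists_mem_notMem_of_card_lt_card (s := {d.2.1, d.2.2})
      (t := cn F d.1.1 d.1.2) (lt_of_le_of_lt card_le_two (by omega))
    obtain ⟨v, hv, nv⟩ := exists_mem_notMem_of_card_lt_card (s := {u, d.1.1, d.1.2})
      (t := cn F d.2.1 d.2.2) (lt_of_le_of_lt card_le_three (by omega))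
    simp only [cn, hQ, mem_filter, mem_univ, true_and, mem_insert, mem_singleton, not_or]
      at hu nu hv nv hd
    obtain ⟨m1, m2, m3, m4, m5, m6⟩ := hd
    exact mem_union_right _ (mem_biUnion.2 ⟨(u, v), mem_univ _, mem_filter.2 ⟨mem_univ _,
      ⟨hu.1.symm, hu.2.symm, hv.1.symm, hv.2.symm, m3, m5, m4, m6, Ne.symm nv.1, m1, m2, nu.1, nu.2,
        nv.2.1, nv.2.2⟩⟩⟩)
  have := (card_le_card sub).trans ((card_union_le _ _).trans
    (Nat.add_le_add_right (card_union_le _ _) _))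
  omega

theorem deg_le {F : SimpleGraph U} (h3 : ¬ (completeBipartiteGraph (Fin 3) (Fin 3)).IsContained F)
    (h : ¬ twice.IsContained F) :
    (∑ v, (univ.filter (F.Adj v)).card) ^ 2 ≤ 150 * Fintype.card U ^ 3 := by
  have h1 := c4_le h3 h
  have h2 : ∑ p ∈ (univ : Finset U).offDiag, (cn F p.1 p.2).card ≤
      ∑ p ∈ (univ : Finset U).offDiag, ((cn F p.1 p.2).offDiag.card + 1) := by
    refine sum_le_sum fun p _ => ?_
    rw [offDiag_card]
    generalize (cn F p.1 p.2).card = c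
    rcases c with _ | c
    · simp
    · have : (c + 1) * (c + 1) - (c + 1) = (c + 1) * c := by
        rw [Nat.mul_succ]; omega
      rw [this]; nlinarith
  have h4 : (univ : Finset U).offDiag.card ≤ Fintype.card U ^ 2 := by
    rw [offDiag_card, card_univ, sq]; omega
  rw [sum_add_distrib, sum_const, smul_eq_mul, mul_one] at h2
  have h5 : ∑ v, (univ.filter (F.Adj v)).offDiag.card ≤
      ∑ p ∈ (univ : Finset U).offDiag, (cn F p.1 p.2).card := by
    rw [← card_sigma, ← card_sigma]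
    refine card_le_card_of_injOn (fun x => ⟨x.2, x.1⟩) (fun x hx => ?_) fun x _ y _ e => ?_
    · simp only [coe_sigma, Set.mem_sigma_iff, mem_coe, mem_offDiag, cn, mem_filter, mem_univ,
        true_and] at hx ⊢
      exact ⟨hx.2.2, hx.1.symm, hx.2.1.symm⟩
    · obtain ⟨e1, e2⟩ := Sigma.mk.inj e
      exact Sigma.ext (eq_of_heq e2) (heq_of_eq e1)
  have h6 : ∑ v, (univ.filter (F.Adj v)).card ^ 2 ≤
      ∑ v, ((univ.filter (F.Adj v)).offDiag.card + Fintype.card U) := by
    refine sum_le_sum fun v _ => ?_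
    have := card_le_univ (univ.filter (F.Adj v))
    rw [offDiag_card, sq]
    omega
  rw [sum_add_distrib, sum_const, smul_eq_mul, card_univ, ← sq] at h6
  have h7 := sq_sum_le_card_mul_sum_sq (s := (univ : Finset U))
    (f := fun v => (univ.filter (F.Adj v)).card)
  rw [card_univ, Nat.cast_id] at h7
  refine h7.trans ?_
  rw [pow_succ _ 2, ← mul_assoc, mul_comm]
  exact Nat.mul_le_mul_right _ (by omega)

end Pool.Agent.FS.SubK33
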