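import Pool.Agent.FS.SubK33.Base

/-! Independent sets, greedy embedding and the triangle-rich core. -/

namespace Pool.Agent.FS.SubK33

open Finset SimpleGraph
open scoped Classical

variable {U : Type} [Fintype U]

omit [Fintype U] in
theorem indep (F : SimpleGraph U) (S : Finset U) (k : ℕ) (h : ∀ v ∈ S, (S.filter (F.Adj v)).card ≤ k) :
    ∃ I ⊆ S, (∀ a ∈ I, ∀ b ∈ I, ¬ F.Adj a b) ∧ S.card ≤ I.card * (k + 1) := by
  obtain ⟨I, hI, hm⟩ := exists_max_image (S.powerset.filter fun I => ∀ a ∈ I, ∀ b ∈ I, ¬ F.Adj a b)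
    card ⟨∅, by simp⟩
  simp only [mem_filter, mem_powerset] at hI hm
  refine ⟨I, hI.1, hI.2, le_trans (card_le_card (t := I.biUnion fun i => insert i (S.filter (F.Adj i)))
    fun s hs => ?_) (card_biUnion_le_card_mul _ _ _ fun i hi =>
      (card_insert_le _ _).trans (Nat.succ_le_succ (h i (hI.1 hi))))⟩
  by_contra hn
  simp only [mem_biUnion, mem_insert, mem_filter, not_exists, not_and, not_or] at hn
  have hs' : s ∉ I := fun k => (hn s k).1 rfl
  have := hm (insert s I) ⟨insert_subset hs hI.1, fun a ha b hb hab => by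
    rcases mem_insert.1 ha with e1 | h1 <;> rcases mem_insert.1 hb with e2 | h2
    · exact hab.ne (e1.trans e2.symm)
    · exact (hn b h2).2 hs (e1 ▸ hab.symm)
    · exact (hn a h1).2 hs (e2 ▸ hab)
    · exact hI.2 a h1 b h2 hab⟩
  rw [card_insert_of_notMem hs'] at this
  omega

omit [Fintype U] in
theorem greedy {α : Type} [Fintype α] (H : SimpleGraph α) (F : SimpleGraph U) (W I : Finset U)
    (Δ L : ℕ) (A : Finset α) (hW : ∀ v ∈ W, (W.filter (F.Adj v)).card ≤ Δ) (hI : I ⊆ W)
    (hI' : ∀ a ∈ I, ∀ b ∈ I, ¬ F.Adj a b) (hA : A.card ≤ I.card)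
    (hL : ∀ b, b ∉ A → (univ.filter (H.Adj b)).card * Δ ≤ L) (hN : Fintype.card α + L < W.card) :
    H.IsContained Fᶜ := by
  obtain ⟨w0, hw0⟩ : W.Nonempty := card_pos.1 (by omega)
  have key : ∀ S : Finset α, ∃ φ : α → U, (∀ a, φ a ∈ W) ∧ Set.InjOn φ (A ∪ S : Finset α) ∧
      ∀ a ∈ A ∪ S, ∀ b ∈ A ∪ S, H.Adj a b → ¬ F.Adj (φ a) (φ b) := by
    intro S
    induction S using Finset.induction_on with
    | empty =>
      obtain ⟨e⟩ : Nonempty (A ↪ I) := Function.Embedding.nonempty_of_card_le (by simpa using hA)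
      refine ⟨fun a => if h : a ∈ A then e ⟨a, h⟩ else w0, fun a => ?_, fun a ha b hb k => ?_,
        fun a ha b hb _ => ?_⟩
      · dsimp only
        split_ifs
        · exact hI (e _).2
        · exact hw0
      · have ha' : a ∈ A := by simpa using ha
        have hb' : b ∈ A := by simpa using hb
        simp only [dif_pos ha', dif_pos hb'] at k
        exact congrArg Subtype.val (e.injective (Subtype.ext k))
      · have ha' : a ∈ A := by simpa using ha
        have hb' : b ∈ A := by simpa using hb
        simp only [dif_pos ha', dif_pos hb']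
        exact hI' _ (e _).2 _ (e _).2
    | insert b S _ ih =>
      obtain ⟨φ, h1, h2, h3⟩ := ih
      by_cases hb : b ∈ A ∪ S
      · rw [union_insert, insert_eq_of_mem hb]
        exact ⟨φ, h1, h2, h3⟩
      have c1 : (univ.image φ ∪ (univ.filter (H.Adj b)).biUnion fun a =>
          W.filter (F.Adj (φ a))).card < W.card := by
        have a1 : (univ.image φ).card ≤ Fintype.card α := card_image_le
        have a2 := card_biUnion_le_card_mul (univ.filter (H.Adj b))
          (fun a => W.filter (F.Adj (φ a))) Δ fun a _ => hW _ (h1 a)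
        have a3 := hL b fun k => hb (mem_union_left _ k)
        exact lt_of_le_of_lt (card_union_le _ _) (by omega)
      obtain ⟨z, hz, hn⟩ := exists_mem_notMem_of_card_lt_card c1
      simp only [mem_union, mem_image, mem_univ, true_and, mem_biUnion, mem_filter, not_or,
        not_exists, not_and] at hn
      have ne : ∀ a ∈ A ∪ S, Function.update φ b z a = φ a := fun a ha =>
        Function.update_of_ne (fun e : a = b => hb (e ▸ ha)) _ _
      rw [union_insert]
      refine ⟨Function.update φ b z, fun a => ?_, fun x hx y hy k => ?_, fun x hx y hy k => ?_⟩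
      · rw [Function.update_apply]
        split_ifs
        · exact hz
        · exact h1 a
      · rcases mem_insert.1 (mem_coe.1 hx) with e1 | e1 <;>
          rcases mem_insert.1 (mem_coe.1 hy) with e2 | e2
        · rw [e1, e2]
        · rw [e1, Function.update_self, ne y e2] at k
          exact absurd k.symm (hn.1 y)
        · rw [e2, Function.update_self, ne x e1] at k
          exact absurd k (hn.1 x)
        · rw [ne x e1, ne y e2] at k
          exact h2 (mem_coe.2 e1) (mem_coe.2 e2) k
      · rcases mem_insert.1 hx with e1 | e1 <;> rcases mem_insert.1 hy with e2 | e2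
        · exact absurd (e1.trans e2.symm) k.ne
        · rw [e1, Function.update_self, ne y e2]
          exact fun t => hn.2 y (e1 ▸ k) hz t.symm
        · rw [e2, Function.update_self, ne x e1]
          exact fun t => hn.2 x (e2 ▸ k.symm) hz t
        · rw [ne x e1, ne y e2]
          exact h3 x e1 y e2 k
  obtain ⟨φ, -, h2, h3⟩ := key univ
  have inj : Function.Injective φ := fun a b k => h2 (by simp) (by simp) k
  exact ⟨⟨⟨φ, fun {a b} k => ⟨inj.ne k.ne, h3 a (by simp) b (by simp) k⟩⟩, inj⟩⟩

def IsTri (F : SimpleGraph U) (t : U × U × U) : Prop :=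
  F.Adj t.1 t.2.1 ∧ F.Adj t.1 t.2.2 ∧ F.Adj t.2.1 t.2.2

/-- ordered adjacent pairs inside `W` -/
noncomputable def pr (F : SimpleGraph U) (W : Finset U) : Finset (U × U) :=
  (W ×ˢ W).filter fun p => F.Adj p.1 p.2

omit [Fintype U] in
theorem pr_card (F : SimpleGraph U) (W : Finset U) :
    (pr F W).card = ∑ v ∈ W, (W.filter (F.Adj v)).card := by
  simp only [pr, card_filter, sum_product]

theorem core (F : SimpleGraph U) (g : ℕ) : ∃ F' ≤ F, Rich g F' ∧
    (univ.filter fun t => IsTri F t ∧ ¬ IsTri F' t).card ≤ 3 * g * (pr F univ).card := by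
  obtain ⟨F', hF, hm⟩ := exists_min_image (univ.filter (· ≤ F))
    (fun G : SimpleGraph U => (3 * g * (pr G univ).card : ℤ) - (univ.filter (IsTri G)).card)
    ⟨F, by simp⟩
  have hle : F' ≤ F := (mem_filter.1 hF).2
  refine ⟨F', hle, fun x y hxy => ?_, ?_⟩
  · by_contra hc
    have h1 := hm (F'.deleteEdges {s(x, y)}) (mem_filter.2 ⟨mem_univ _, (deleteEdges_le _).trans hle⟩)
    have h2 : (pr (F'.deleteEdges {s(x, y)}) univ).card + 2 ≤ (pr F' univ).card := by
      have c2 : ({(x, y), (y, x)} : Finset (U × U)).card = 2 :=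
        card_pair fun e => hxy.ne (congrArg Prod.fst e)
      rw [← c2, ← card_union_of_disjoint]
      · refine card_le_card fun p hp => ?_
        simp only [pr, mem_union, mem_filter, mem_product, mem_univ, true_and, deleteEdges_adj,
          mem_insert, mem_singleton] at hp ⊢
        rcases hp with hp | rfl | rfl
        · exact hp.1
        · exact hxy
        · exact hxy.symm
      · rw [disjoint_right]
        intro p hp
        simp only [mem_insert, mem_singleton] at hp
        rcases hp with rfl | rfl <;> simp [pr]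
    have h3 : (univ.filter (IsTri F')).card ≤
        (univ.filter (IsTri (F'.deleteEdges {s(x, y)}))).card + (cn F' x y).card * 6 := by
      refine le_trans (card_le_card (t := _ ∪ (cn F' x y).biUnion fun z =>
        {(x, y, z), (y, x, z), (x, z, y), (y, z, x), (z, x, y), (z, y, x)}) ?_)
        ((card_union_le _ _).trans (Nat.add_le_add_left
          (card_biUnion_le_card_mul _ _ _ fun _ _ => card_le_six) _))
      rintro ⟨a, b, c⟩ ht
      simp only [IsTri, mem_filter, mem_univ, true_and] at ht
      obtain ⟨t1, t2, t3⟩ := ht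
      simp only [mem_union, mem_biUnion]
      by_cases k1 : s(a, b) = s(x, y)
      · rcases Sym2.eq_iff.1 k1 with ⟨rfl, rfl⟩ | ⟨rfl, rfl⟩
        · exact Or.inr ⟨c, by simp [cn, t2, t3], by simp⟩
        · exact Or.inr ⟨c, by simp [cn, t2, t3], by simp⟩
      by_cases k2 : s(a, c) = s(x, y)
      · rcases Sym2.eq_iff.1 k2 with ⟨rfl, rfl⟩ | ⟨rfl, rfl⟩
        · exact Or.inr ⟨b, by simp [cn, t1, t3.symm], by simp⟩
        · exact Or.inr ⟨b, by simp [cn, t1, t3.symm], by simp⟩
      by_cases k3 : s(b, c) = s(x, y)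
      · rcases Sym2.eq_iff.1 k3 with ⟨rfl, rfl⟩ | ⟨rfl, rfl⟩
        · exact Or.inr ⟨a, by simp [cn, t1.symm, t2.symm], by simp⟩
        · exact Or.inr ⟨a, by simp [cn, t1.symm, t2.symm], by simp⟩
      exact Or.inl (mem_filter.2 ⟨mem_univ _, deleteEdges_adj.2 ⟨t1, k1⟩,
        deleteEdges_adj.2 ⟨t2, k2⟩, deleteEdges_adj.2 ⟨t3, k3⟩⟩)
    have h4 : (cn F' x y).card + 1 ≤ g := by omega
    zify at h2 h3 h4
    nlinarith [mul_le_mul_of_nonneg_left h2 (by positivity : (0 : ℤ) ≤ 3 * g)]
  · have h1 := hm F (by simp)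
    have h2 : (univ.filter fun t => IsTri F t ∧ ¬ IsTri F' t).card + (univ.filter (IsTri F')).card ≤
        (univ.filter (IsTri F)).card := by
      rw [← card_union_of_disjoint (disjoint_left.2 fun t a b =>
        (mem_filter.1 a).2.2 (mem_filter.1 b).2)]
      refine card_le_card fun t ht => mem_filter.2 ⟨mem_univ _, ?_⟩
      rcases mem_union.1 ht with k | k
      · exact (mem_filter.1 k).2.1
      · have := (mem_filter.1 k).2
        exact ⟨hle this.1, hle this.2.1, hle this.2.2⟩
    zify at h2 ⊢
    have : (0 : ℤ) ≤ 3 * g * (pr F' univ).card := by positivity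
    linarith

end Pool.Agent.FS.SubK33
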