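import Pool.Agent.FS.SubK33.C

/-! Removing vertices of maximum degree. -/

namespace Pool.Agent.FS.SubK33

open Finset SimpleGraph
open scoped Classical

variable {U : Type} [Fintype U]

/-- a large set with a large independent subset -/
def Pool' (F : SimpleGraph U) (c : ℕ) : Prop :=
  ∃ (W I : Finset U) (Δ : ℕ), Fintype.card U / 2 ≤ W.card ∧ (∀ v ∈ W, (W.filter (F.Adj v)).card ≤ Δ) ∧
    I ⊆ W ∧ (∀ a ∈ I, ∀ b ∈ I, ¬ F.Adj a b) ∧ Δ ≤ I.card * c

noncomputable def poor (F F' : SimpleGraph U) (W : Finset U) : Finset (U × U × U) :=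
  (W ×ˢ W ×ˢ W).filter fun t => IsTri F t ∧ ¬ IsTri F' t

omit [Fintype U] in
theorem pr_erase (F : SimpleGraph U) (W : Finset U) (v : U) :
    (pr F W).card ≤ (pr F (W.erase v)).card + 2 * (W.filter (F.Adj v)).card := by
  have : pr F W ⊆ pr F (W.erase v) ∪ (W.filter (F.Adj v)).biUnion fun a => {(v, a), (a, v)} := by
    rintro ⟨a, b⟩ h
    simp only [pr, mem_filter, mem_product, mem_union, mem_erase, mem_biUnion, mem_insert,
      mem_singleton, Prod.mk.injEq] at h ⊢
    by_cases h1 : a = v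
    · exact Or.inr ⟨b, ⟨h.1.2, h1 ▸ h.2⟩, Or.inl ⟨h1, rfl⟩⟩
    by_cases h2 : b = v
    · exact Or.inr ⟨a, ⟨h.1.1, h2 ▸ h.2.symm⟩, Or.inr ⟨rfl, h2⟩⟩
    exact Or.inl ⟨⟨⟨h1, h.1.1⟩, h2, h.1.2⟩, h.2⟩
  have h2 := card_biUnion_le_card_mul (W.filter (F.Adj v))
    (fun a => ({(v, a), (a, v)} : Finset (U × U))) 2 fun _ _ => card_le_two
  have := (card_le_card this).trans (card_union_le _ _)
  omega

omit [Fintype U] in
theorem pr_erase' (F : SimpleGraph U) {W : Finset U} {v : U} (hv : v ∈ W) :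
    (pr F (W.erase v)).card + (W.filter (F.Adj v)).card ≤ (pr F W).card := by
  rw [pr_card, pr_card, ← sum_erase_add _ _ hv]
  exact Nat.add_le_add_right (sum_le_sum fun a _ =>
    card_le_card (filter_subset_filter _ (erase_subset _ _))) _

omit [Fintype U] in
theorem poor_erase (F F' : SimpleGraph U) {W : Finset U} {v : U} (hv : v ∈ W) :
    (poor F F' (W.erase v)).card + (pr F (W.filter fun a => F.Adj v a ∧ ¬ F'.Adj v a)).card ≤
      (poor F F' W).card := by
  rw [← card_image_of_injective (pr F _) (f := fun p : U × U => (v, p)) (Prod.mk_right_injective v),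
    ← card_union_of_disjoint]
  · refine card_le_card fun t ht => ?_
    rcases mem_union.1 ht with k | k
    · simp only [poor, mem_filter, mem_product, mem_erase] at k ⊢
      tauto
    · obtain ⟨p, hp, rfl⟩ := mem_image.1 k
      simp only [poor, pr, IsTri, mem_filter, mem_product] at hp ⊢
      tauto
  · rw [disjoint_right]
    intro t k
    obtain ⟨p, -, rfl⟩ := mem_image.1 k
    simp [poor]

theorem step (F F' : SimpleGraph U) (μ : ℕ) {c : ℕ} (hc : 16 * μ + 4 ≤ c) (h : ¬ Pool' F c)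
    {W : Finset U} (hW : Fintype.card U / 2 ≤ W.card) {v : U} (hv : v ∈ W)
    (hm : ∀ a ∈ W, (W.filter (F.Adj a)).card ≤ (W.filter (F.Adj v)).card) :
    (poor F F' (W.erase v)).card + 2 * μ * (pr F' (W.erase v)).card + μ * (W.filter (F.Adj v)).card ≤
      (poor F F' W).card + 2 * μ * (pr F' W).card := by
  have h1 := poor_erase F F' hv
  have h2 := Nat.mul_le_mul_left (2 * μ) (pr_erase' F' hv)
  set P := W.filter fun a => F.Adj v a ∧ ¬ F'.Adj v a with hP
  set Δ := (W.filter (F.Adj v)).card with hΔ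
  by_contra hn
  have h3 : (pr F P).card + 2 * μ * (W.filter (F'.Adj v)).card < μ * Δ := by
    rw [mul_add] at h2; omega
  have h4 : Δ ≤ P.card + (W.filter (F'.Adj v)).card := by
    refine le_trans (card_le_card fun a ha => ?_) (card_union_le _ _)
    simp only [hP, mem_union, mem_filter] at ha ⊢
    tauto
  have h5 : 2 * (W.filter (F'.Adj v)).card < Δ := by
    refine lt_of_mul_lt_mul_left (a := μ) ?_ (Nat.zero_le _)
    rw [← mul_assoc, mul_comm μ 2]; omega
  have h6 : (P.filter fun a => ¬ (P.filter (F.Adj a)).card ≤ 4 * μ).card * (4 * μ) ≤ (pr F P).card := by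
    rw [pr_card]
    exact (card_nsmul_le_sum _ _ _ fun a ha => (not_le.1 (mem_filter.1 ha).2).le).trans
      (sum_le_sum_of_subset (filter_subset _ _))
  have h7 : 4 * (P.filter fun a => ¬ (P.filter (F.Adj a)).card ≤ 4 * μ).card < Δ := by
    refine lt_of_mul_lt_mul_left (a := μ) ?_ (Nat.zero_le _)
    nlinarith
  have h8 := card_filter_add_card_filter_not (s := P) fun a => (P.filter (F.Adj a)).card ≤ 4 * μ
  obtain ⟨I, i1, i2, i3⟩ := indep F (P.filter fun a => (P.filter (F.Adj a)).card ≤ 4 * μ) (4 * μ)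
    fun a ha => (card_le_card (filter_subset_filter _ (filter_subset _ _))).trans (mem_filter.1 ha).2
  refine h ⟨W, I, Δ, hW, hm, i1.trans ((filter_subset _ _).trans (filter_subset _ _)), i2, ?_⟩
  have := Nat.mul_le_mul_left I.card hc
  have h9 : Δ ≤ 4 * (I.card * (4 * μ + 1)) := by omega
  nlinarith

theorem pool (F F' : SimpleGraph U) (g : ℕ) (hg : 0 < g) (hN : 2 ≤ Fintype.card U)
    (h1 : (poor F F' univ).card ≤ 3 * g * (pr F univ).card)
    (h2 : (pr F' univ).card ^ 2 ≤ 150 * Fintype.card U ^ 3) : Pool' F (288 * g + 57600) := by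
  by_contra h
  obtain ⟨μ, hμ⟩ : ∃ μ, μ = 18 * g := ⟨_, rfl⟩
  have μ0 : 0 < μ := by omega
  obtain ⟨Φ, hΦ⟩ : ∃ Φ : Finset U → ℕ, ∀ W, Φ W = (poor F F' W).card + 2 * μ * (pr F' W).card :=
    ⟨_, fun _ => rfl⟩
  have key : ∀ j ≤ Fintype.card U - Fintype.card U / 2, ∃ W : Finset U,
      W.card + j = Fintype.card U ∧
      2 * Φ W + μ * (pr F univ).card ≤ 2 * Φ univ + μ * (pr F W).card ∧
      ∀ v ∈ W, Φ W + μ * (j * (W.filter (F.Adj v)).card) ≤ Φ univ := by
    intro j
    induction j with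
    | zero => exact fun _ => ⟨univ, by simp, le_rfl, by simp⟩
    | succ j ih =>
      intro hj
      obtain ⟨W, w1, w2, w3⟩ := ih (by omega)
      obtain ⟨v, hv, hm⟩ := exists_max_image W (fun a => (W.filter (F.Adj a)).card)
        (card_pos.1 (by omega))
      have s1 := step F F' μ (by omega) h (by omega) hv hm
      rw [← hΦ, ← hΦ] at s1
      have s2 := Nat.mul_le_mul_left μ (pr_erase F W v)
      refine ⟨W.erase v, by rw [card_erase_of_mem hv]; omega, by nlinarith, fun a ha => ?_⟩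
      have s3 : ((W.erase v).filter (F.Adj a)).card ≤ (W.filter (F.Adj v)).card :=
        (card_le_card (filter_subset_filter _ (erase_subset _ _))).trans (hm a (mem_of_mem_erase ha))
      have s4 := w3 v hv
      have s5 := Nat.mul_le_mul_left (μ * (j + 1)) s3
      nlinarith
  obtain ⟨W, w1, w2, w3⟩ := key _ le_rfl
  obtain ⟨j, hj⟩ : ∃ j, j = Fintype.card U - Fintype.card U / 2 := ⟨_, rfl⟩
  rw [← hj] at w1 w3
  have j0 : 0 < j := by omega
  have a1 : μ * (pr F W).card ≤ Φ univ := by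
    refine Nat.le_of_mul_le_mul_left ?_ j0
    have : ∑ v ∈ W, μ * (j * (W.filter (F.Adj v)).card) ≤ W.card * Φ univ :=
      sum_le_card_nsmul _ _ _ fun v hv => le_trans (Nat.le_add_left _ _) (w3 v hv)
    rw [← mul_sum, ← mul_sum, ← pr_card] at this
    have a0 := Nat.mul_le_mul_right (Φ univ) (show W.card ≤ j by omega)
    nlinarith
  have a2 : Φ univ ≤ 4 * μ * (pr F' univ).card := by
    have := hΦ univ
    have e : μ * (pr F univ).card = 6 * (3 * g * (pr F univ).card) := by rw [hμ]; ring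
    nlinarith
  obtain ⟨v, hv, hm⟩ := exists_max_image W (fun a => (W.filter (F.Adj a)).card)
    (card_pos.1 (by omega))
  obtain ⟨Δ, hΔ⟩ : ∃ Δ, Δ = (W.filter (F.Adj v)).card := ⟨_, rfl⟩
  have a3 : j * Δ ≤ 4 * (pr F' univ).card := by
    refine Nat.le_of_mul_le_mul_left ?_ μ0
    have := w3 v hv
    rw [← hΔ] at this
    nlinarith
  have a4 : Δ ^ 2 ≤ 9600 * Fintype.card U := by
    have b1 : Fintype.card U * Δ ≤ 8 * (pr F' univ).card := by
      have := Nat.mul_le_mul_right Δ (show Fintype.card U ≤ 2 * j by omega)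
      nlinarith
    have b2 := Nat.pow_le_pow_left b1 2
    refine Nat.le_of_mul_le_mul_left (c := Fintype.card U ^ 2) ?_ (by positivity)
    nlinarith
  simp only [← hΔ] at hm
  obtain ⟨I, i1, i2, i3⟩ := indep F W Δ hm
  refine h ⟨W, I, Δ, by omega, hm, i1, i2, le_trans ?_ (Nat.mul_le_mul_left _ (Nat.le_add_left _ _))⟩
  refine Nat.le_of_mul_le_mul_right (c := Δ + 1) ?_ (Nat.succ_pos _)
  have b3 : Fintype.card U ≤ 3 * W.card := by omega
  nlinarith [Nat.le_self_pow two_ne_zero Δ]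

end Pool.Agent.FS.SubK33
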