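import Mathlib

/-! Subdivisions of graphs. -/

namespace Pool.Agent.FS.SubK33

/-- Replace the edge `x y` by a path `x, none, y` through a new vertex. -/
def subdivide {V : Type} (G : SimpleGraph V) (x y : V) : SimpleGraph (Option V) where
  Adj a b := match a, b with
    | some a, some b => G.Adj a b ∧ s(a, b) ≠ s(x, y)
    | some a, none => a = x ∨ a = y
    | none, some b => b = x ∨ b = y
    | none, none => False
  symm := ⟨by
    rintro (_ | a) (_ | b) h
    · exact h
    · exact h
    · exact h
    · exact ⟨h.1.symm, by rw [Sym2.eq_swap]; exact h.2⟩⟩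
  loopless := ⟨by
    rintro (_ | a) h
    · exact h
    · exact G.irrefl h.1⟩

/-- `G` is obtained from `G₀` by subdividing edges, one after the other. -/
inductive IsSubdiv {W : Type} (G₀ : SimpleGraph W) : (V : Type) → SimpleGraph V → Prop
  | base : IsSubdiv G₀ W G₀
  | step {V : Type} {G : SimpleGraph V} (x y : V) : IsSubdiv G₀ V G → G.Adj x y →
      IsSubdiv G₀ (Option V) (subdivide G x y)

/-- `K₃,₃` with one edge replaced by a path of length three. -/
def twice : SimpleGraph (Option (Option (Fin 3 ⊕ Fin 3))) :=
  subdivide (subdivide (completeBipartiteGraph (Fin 3) (Fin 3)) (.inl 0) (.inr 0)) none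
    (some (.inr 0))

end Pool.Agent.FS.SubK33
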